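import Pool.Agent.R973.Cp.Model
import Pool.Agent.R973.Cp.Final

/-!
# `m_{1/2} > 2/3` for the copolymer model
-/

set_option autoImplicit false

open MeasureTheory ProbabilityTheory Filter Topology

namespace Pool.Agent.Results.MP_c26281_pr.HalfStrict

open Pool.Agent.R973.Copolymer

/-- For every gap law with exponent `α = 1/2` and every charge law (mean `0`, variance `1`, all
exponential moments): the free energy exists as a limit for `λ > 0`, `h ≥ 0`, it is positive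
exactly for `h < h_c(λ)`, and there is `δ > 0` such that `h_c(λ)/λ ≥ 2/3 + δ` for all small
`λ > 0`. In particular the slope `m_{1/2}` of the critical curve at the origin is larger than
`2/3`. -/
theorem result (κ : PMF ℕ) (hκ : IsGapLaw κ (1 / 2))
    (ν : Measure ℝ) [IsProbabilityMeasure ν] (hν : IsChargeLaw ν) :
    (∀ lam : ℝ, 0 < lam →
      (∀ h : ℝ, 0 ≤ h → Tendsto (feN κ ν lam h) atTop (𝓝 (freeEnergy κ ν lam h))) ∧
      0 < hc κ ν lam ∧
      ∀ h : ℝ, 0 ≤ h → (0 < freeEnergy κ ν lam h ↔ h < hc κ ν lam)) ∧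
    (∃ δ : ℝ, 0 < δ ∧ ∀ᶠ lam in 𝓝[>] (0 : ℝ), 2 / 3 + δ ≤ hc κ ν lam / lam) ∧
    ∀ m : ℝ, Tendsto (fun lam => hc κ ν lam / lam) (𝓝[>] 0) (𝓝 m) → 2 / 3 < m := by
  have hα0 : (0 : ℝ) < 1 / 2 := by norm_num
  have key : ∃ δ : ℝ, 0 < δ ∧
      ∀ᶠ lam in 𝓝[>] (0 : ℝ), 2 / 3 + δ ≤ hc κ ν lam / lam := by
    obtain ⟨δ, hδ, h⟩ := slope_lower hα0 (by norm_num) hκ hν
    have e : (1 : ℝ) / (1 + 1 / 2) = 2 / 3 := by norm_num
    rw [e] at h
    exact ⟨δ, hδ, h⟩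
  refine ⟨fun lam hlam => ?_, key, fun m hm => ?_⟩
  · obtain ⟨h1, _, h3⟩ := hc_spec hα0 hκ hν hlam
    exact ⟨(exists_hc hα0 hκ hν hlam).1, h1, h3⟩
  · obtain ⟨δ, hδ, h⟩ := key
    have := ge_of_tendsto hm h
    linarith

end Pool.Agent.Results.MP_c26281_pr.HalfStrict
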